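import Pool.Agent.Y883.T3.MainG
import Pool.Agent.Y883.T3.MomW

/-!
# Small prime summands in Goldbach representations of the multiples of `q`, `q ≤ N ^ (2 / 3 - ρ)`

Apart from the multiples of the members of a very sparse set of integers larger than `(log N)^A`, every
modulus `q ≤ N ^ (2 / 3 - ρ)` has the property that almost all even multiples `m ≤ N` of `q` are sums of
two primes one of which is at most `m / log ^ A m`, and at most `X ^ 2 N ^ (ρ - 1)` of the moduli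
`q ≤ X` do not have it, for every `X ≤ N`.

Definition used (in `Pool.Agent.H560R3.GB`): `sing m`: the singular series
`2 C₂ ∏_{p ∣ m, p > 2} (p - 1) / (p - 2)`, where `C₂ = ∏_{p > 2} (1 - 1 / (p - 1) ^ 2)`.

Proof. Let `R` be a set of exceptional moduli between `Q` and `2 Q`, `Q ≤ N ^ (2 / 3 - ρ)`, and `P = N / Q`.
For every `q` in `R` there is a window in which the number of Goldbach pairs of many multiples of `q`
differs from its expected value (`T3.MomW`). By duality (`T3.Lev`) one of the level sets `Z` of the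
exponential sum over the primes minus a sieve model contains `|Z|^2 / (log N)^c` pairs of points
`t / M, t' / M` with `|q (t - t') / M - a| ≤ (log N)^c / P`; this does not depend on the window. By
the estimate of Vinogradov (`T3.Vin`, `T3.Lsh`, `T3.Mod`) the members of `Z` are close to fractions with
small denominators. If `Z` has less than `P N ^ (- ε)` members this shows that `q` has a common divisor with the
denominators of many of them (`small_case`, `large_case`). If `Z` is larger we count the pairs which are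
close for two members `q, q'` of `R` (`deep_case`), and see that many pairs of members of `R` have a
large common divisor. The two ranges overlap since `Q ^ 3 ≤ N ^ (2 - 3 ρ)`. In every case many members of `R` have a
common divisor `d > (log N)^A'`; we remove these members and repeat the argument. For
`Q > N ^ (2 / 3 - ρ)` the theorem of the starting files on families of small additive energy is used
(`TH935.GF.fam_win`).
-/

set_option autoImplicit false

namespace Pool.Agent.Results.MP_bae66e_nt.MultiplesOfModuliUpToTwoThirds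

open Finset Pool.Agent.H560R3.GB

/-- The number of primes `p` with `y₁ < p ≤ y₂` such that `m - p` is a prime. -/
def R (m y₁ y₂ : ℕ) : ℕ := ((Ioc y₁ y₂).filter (fun p => p.Prime ∧ (m - p).Prime)).card

/-- (1) There is a prime `p ≤ m / log ^ A m` such that `m - p` is a prime (thus `g(m) ≤ m / log ^ A m`
in the notation of the problem); (2) in every window `(y₁, y₂] ⊆ (0, m]` of a length of at least
`m / log ^ A m` the number of primes `p` such that `m - p` is a prime agrees with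
`sing m * (y₂ - y₁) / log ^ 2 m` up to a relative error of at most `ε`. -/
def Holds (ε : ℝ) (A m : ℕ) : Prop :=
  (∃ p : ℕ, p.Prime ∧ (m - p).Prime ∧ (p : ℝ) ≤ m / Real.log m ^ A) ∧
  ∀ y₁ y₂ : ℕ, y₁ < y₂ → y₂ ≤ m → (m : ℝ) / Real.log m ^ A ≤ (y₂ : ℝ) - y₁ →
    |(R m y₁ y₂ : ℝ) - sing m * ((y₂ : ℝ) - y₁) / Real.log m ^ 2| ≤ ε * (sing m * ((y₂ : ℝ) - y₁) / Real.log m ^ 2)

open Classical in
/-- The number of the even multiples `m` of `q` with `1 ≤ m ≤ N` for which `Holds` fails. -/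
noncomputable def exceptions (ε : ℝ) (A N q : ℕ) : ℕ :=
  ((Icc 1 N).filter (fun m => 2 ∣ m ∧ q ∣ m ∧ ¬ Holds ε A m)).card

theorem win_holds (ε : ℝ) (A : ℕ) : ∃ m₀ : ℕ, ∀ m : ℕ, m₀ ≤ m → 2 ∣ m →
    Pool.Agent.W93.PG.WinP (min ε (1 / 2)) (A + 1) m → Holds ε A m := by
  classical
  obtain ⟨n1, h1⟩ := Pool.Agent.H373R2.T7.ev_L' 2
  obtain ⟨n2, h2⟩ := Pool.Agent.H373R2.T7.ev_log' (A + 1) 1
  refine ⟨n1 + n2 + 4, ?_⟩
  intro m hm _ hwin
  have a1 := h1 m (by omega)
  have a2 := h2 m (by omega)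
  have hm4 : (4 : ℝ) ≤ m := by exact_mod_cast (by omega : 4 ≤ m)
  have hm0 : (0 : ℝ) < m := by linarith
  rw [one_mul] at a2
  obtain ⟨M, hM⟩ : ∃ M, M = Real.log (m : ℝ) := ⟨_, rfl⟩
  have hs := Pool.Agent.W93.GB.one_le_sing m
  unfold Pool.Agent.W93.PG.WinP at hwin
  unfold Holds
  rw [← hM] at a1 a2 hwin ⊢
  have hM1 : 1 ≤ M := by linarith
  have hM0 : 0 < M := by linarith
  have hmm : √(m : ℝ) * √(m : ℝ) = m := Real.mul_self_sqrt hm0.le
  have hsm0 : 0 < √(m : ℝ) := Real.sqrt_pos.2 hm0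
  have hle : (m : ℝ) / M ^ (A + 1) ≤ m / M ^ A := by
    apply div_le_div_of_nonneg_left hm0.le (by positivity)
    exact pow_le_pow_right₀ hM1 (by omega)
  have hR : ∀ y₁ y₂, Pool.Agent.W93.PG.cnt m y₁ y₂ = R m y₁ y₂ := fun _ _ => rfl
  simp only [hR] at hwin
  have hsm : √(m : ℝ) ≤ m / M ^ (A + 1) := by
    rw [le_div_iff₀ (by positivity)]
    calc √(m : ℝ) * M ^ (A + 1) ≤ √(m : ℝ) * √(m : ℝ) := mul_le_mul_of_nonneg_left a2 hsm0.le
      _ = m := hmm
  have hsm2 : 2 ≤ √(m : ℝ) := by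
    apply Real.le_sqrt_of_sq_le
    linarith
  constructor
  · obtain ⟨y, hy⟩ : ∃ y, y = ⌈(m : ℝ) / M ^ (A + 1)⌉₊ := ⟨_, rfl⟩
    have hy1 : (m : ℝ) / M ^ (A + 1) ≤ y := by rw [hy]; exact Nat.le_ceil _
    have hy2 : (y : ℝ) ≤ m / M ^ (A + 1) + 1 := by rw [hy]; exact (Nat.ceil_lt_add_one (by positivity)).le
    have hy3 : (y : ℝ) ≤ m / M ^ A := by
      have e : (m : ℝ) / M ^ A = m / M ^ (A + 1) * M := by rw [pow_succ]; field_simp
      have h5 : (m : ℝ) / M ^ (A + 1) * 2 ≤ m / M ^ (A + 1) * M := mul_le_mul_of_nonneg_left a1 (by positivity)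
      rw [e]
      linarith
    have hy4 : y ≤ m := by
      have h5 : (m : ℝ) / M ^ A ≤ m := div_le_self hm0.le (one_le_pow₀ hM1)
      exact_mod_cast hy3.trans h5
    have hy0 : 0 < y := by
      have : (0 : ℝ) < y := by linarith
      exact_mod_cast this
    have hw := hwin 0 y hy0 hy4 (by push_cast; linarith)
    have hmain : 0 < sing m * ((y : ℝ) - (0 : ℕ)) / M ^ 2 := by
      have : (0 : ℝ) < (y : ℝ) - (0 : ℕ) := by push_cast; linarith
      positivity
    have h6 : |(R m 0 y : ℝ) - sing m * ((y : ℝ) - (0 : ℕ)) / M ^ 2| ≤ 1 / 2 * (sing m * ((y : ℝ) - (0 : ℕ)) / M ^ 2) :=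
      hw.trans (mul_le_mul_of_nonneg_right (min_le_right _ _) hmain.le)
    have h7 : (0 : ℝ) < R m 0 y := by
      rw [abs_le] at h6
      linarith [h6.1]
    have h8 : 0 < R m 0 y := by exact_mod_cast h7
    unfold R at h8
    rw [card_pos] at h8
    obtain ⟨p, hp⟩ := h8
    rw [mem_filter, mem_Ioc] at hp
    have h9 : (p : ℝ) ≤ y := by exact_mod_cast hp.1.2
    exact ⟨p, hp.2.1, hp.2.2, h9.trans hy3⟩
  · intro y₁ y₂ h12 hy2 hΔ
    have hw := hwin y₁ y₂ h12 hy2 (hle.trans hΔ)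
    refine hw.trans ?_
    apply mul_le_mul_of_nonneg_right (min_le_left _ _)
    have h5 : (0 : ℝ) ≤ (y₂ : ℝ) - y₁ := by
      have : (y₁ : ℝ) ≤ y₂ := by exact_mod_cast h12.le
      linarith
    positivity

/-- The modulus `q` is regular: all but at most `N / (q (log N)^A)` of the even multiples `m ≤ N` of
`q` have the property `Holds ε A m`. -/
def Regular (ε : ℝ) (A N q : ℕ) : Prop :=
  (exceptions ε A N q : ℝ) ≤ (N : ℝ) / (q * Real.log N ^ A)

/-- For all `ε, ρ > 0` and `A` and all sufficiently large `N` there is a finite set `D` of integers, all of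
them larger than `(log N)^A`, with at most `y ^ ρ` members up to `y` for every `y ≥ 1`, such that all
positive integers `q ≤ N ^ (2 / 3 - ρ)` that are not divisible by a member of `D` are regular, and for every
`X ≤ N` at most `X ^ 2 N ^ (ρ - 1)` positive integers `q ≤ X` that are not divisible by a member of `D`
are not regular. -/
theorem result (ε ρ : ℝ) (hε : 0 < ε) (hρ : 0 < ρ) (A : ℕ) :
    ∃ N₀ : ℕ, ∀ N : ℕ, N₀ ≤ N → ∃ D : Finset ℕ,
      (∀ d ∈ D, Real.log N ^ A < (d : ℝ)) ∧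
      (∀ y : ℝ, 1 ≤ y → ((D.filter (fun d : ℕ => (d : ℝ) ≤ y)).card : ℝ) ≤ y ^ ρ) ∧
      (∀ q : ℕ, 1 ≤ q → (q : ℝ) ≤ (N : ℝ) ^ (2 / 3 - ρ) → (∀ d ∈ D, ¬ d ∣ q) → Regular ε A N q) ∧
      ∀ X : ℕ, X ≤ N →
        (({q : ℕ | 1 ≤ q ∧ q ≤ X ∧ (∀ d ∈ D, ¬ d ∣ q) ∧ ¬ Regular ε A N q}.ncard : ℕ) : ℝ) ≤
          (X : ℝ) ^ 2 * (N : ℝ) ^ (ρ - 1) := by
  classical
  obtain ⟨m₀, hm₀⟩ := win_holds ε A
  obtain ⟨N₀, h0⟩ := Pool.Agent.Y883.T3.main3G (Holds ε A)
    (fun h B C U hh => Pool.Agent.TH935.GF.fam_win h B C (A + 1) U m₀ hh (min ε (1 / 2))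
      (lt_min hε (by norm_num)) (Holds ε A) hm₀)
    (fun A₁ => Pool.Agent.Y883.T3.momW (min ε (1 / 2)) (lt_min hε (by norm_num)) (A + 1) m₀ (Holds ε A) hm₀ A₁)
    ρ hρ A
  refine ⟨N₀ + 1, fun N hN => ?_⟩
  obtain ⟨D, hD1, hD2, hD4, hD3⟩ := h0 N (by omega)
  refine ⟨D, hD1, hD2, fun q hq hqN hqD => hD4 q hq hqN hqD, fun X hX => ?_⟩
  have hN0 : (0 : ℝ) < N := by exact_mod_cast (by omega : 0 < N)
  have h1 := hD3 X hX
  have hset : {q : ℕ | 1 ≤ q ∧ q ≤ X ∧ (∀ d ∈ D, ¬ d ∣ q) ∧ ¬ Regular ε A N q} =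
      (((Icc 1 X).filter (fun q => (∀ d ∈ D, ¬ d ∣ q) ∧
        (N : ℝ) / (q * Real.log N ^ A) < (Pool.Agent.Y883.badm (Holds ε A) N q).card) : Finset ℕ) : Set ℕ) := by
    ext q
    rw [mem_coe, mem_filter, mem_Icc]
    constructor
    · rintro ⟨a1, a2, a3, a4⟩
      exact ⟨⟨a1, a2⟩, a3, not_le.1 a4⟩
    · rintro ⟨⟨a1, a2⟩, a3, a4⟩
      exact ⟨a1, a2, a3, not_le.2 a4⟩
  rw [hset, Set.ncard_coe_finset]
  refine le_of_mul_le_mul_right ?_ hN0
  refine h1.trans (le_of_eq ?_)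
  calc (X : ℝ) ^ 2 * (N : ℝ) ^ ρ = X ^ 2 * ((N : ℝ) ^ (ρ - 1) * (N : ℝ) ^ (1 : ℝ)) := by
        rw [← Real.rpow_add hN0]; congr 2; ring
    _ = X ^ 2 * (N : ℝ) ^ (ρ - 1) * N := by rw [Real.rpow_one]; ring

end Pool.Agent.Results.MP_bae66e_nt.MultiplesOfModuliUpToTwoThirds
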