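import Pool.Agent.Y885.WI4
import Pool.Agent.H560R3.GB.Defs

/-!
# Goldbach pairs in short windows, and the least summand: random sums with up to two fifths of the scales
missing, and prescribed digits

Definitions used (in `Pool.Agent.H560R3.GB`): `C₂`: the twin prime constant
`∏_{p > 2} (1 - 1 / (p - 1) ^ 2)`; `sing m`: the singular series `2 C₂ ∏_{p ∣ m, p > 2} (p - 1) / (p - 2)`.
-/

set_option autoImplicit false

namespace Pool.Agent.Results.MP_bae66e_nt.RandomSumWindows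

open Finset Pool.Agent.H560R3.GB

/-- The number of primes `p` with `y₁ < p ≤ y₂` such that `m - p` is a prime. -/
def R (m y₁ y₂ : ℕ) : ℕ := ((Ioc y₁ y₂).filter (fun p => p.Prime ∧ (m - p).Prime)).card

/-- (1) There is a prime `p ≤ m / log ^ A m` such that `m - p` is a prime (thus `g(m) ≤ m / log ^ A m`
in the notation of the problem); (2) in every window `(y₁, y₂]` of a length of at least `m / log ^ A m`
with `0 ≤ y₁ < y₂ ≤ m` the number of primes `p` such that `m - p` is a prime agrees with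
`sing m * (y₂ - y₁) / log ^ 2 m` up to a relative error of at most `ε`. -/
def Holds (ε : ℝ) (A m : ℕ) : Prop :=
  (∃ p : ℕ, p.Prime ∧ (m - p).Prime ∧ (p : ℝ) ≤ m / Real.log m ^ A) ∧
  ∀ y₁ y₂ : ℕ, y₁ < y₂ → y₂ ≤ m → (m : ℝ) / Real.log m ^ A ≤ (y₂ : ℝ) - y₁ →
    |(R m y₁ y₂ : ℝ) - sing m * ((y₂ : ℝ) - y₁) / Real.log m ^ 2| ≤ ε * (sing m * ((y₂ : ℝ) - y₁) / Real.log m ^ 2)

lemma holds_of (ε : ℝ) (A : ℕ) : ∃ m₀ : ℕ, ∀ m : ℕ, m₀ ≤ m → 2 ∣ m →
    Pool.Agent.W93.PG.WinP (min ε (1 / 2)) (A + 1) m → Holds ε A m := by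
  obtain ⟨n1, h1⟩ := Pool.Agent.H373R2.T7.ev_L' 2
  obtain ⟨n2, h2⟩ := Pool.Agent.H373R2.T7.ev_log' (A + 1) 1
  refine ⟨n1 + n2 + 4, ?_⟩
  intro m hm _ hwin
  have a1 := h1 m (by omega)
  have a2 := h2 m (by omega)
  have hm4 : (4 : ℝ) ≤ m := by exact_mod_cast (by omega : 4 ≤ m)
  have hm0 : (0 : ℝ) < m := by linarith
  rw [one_mul] at a2
  obtain ⟨M, hM⟩ : ∃ M, M = Real.log (m : ℝ) := ⟨_, rfl⟩
  have hs := Pool.Agent.W93.GB.one_le_sing m
  unfold Pool.Agent.W93.PG.WinP at hwin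
  unfold Holds
  rw [← hM] at a1 a2 hwin ⊢
  have hM1 : 1 ≤ M := by linarith
  have hM0 : 0 < M := by linarith
  have hmm : √(m : ℝ) * √(m : ℝ) = m := Real.mul_self_sqrt hm0.le
  have hsm0 : 0 < √(m : ℝ) := Real.sqrt_pos.2 hm0
  have hle : (m : ℝ) / M ^ (A + 1) ≤ m / M ^ A := by
    apply div_le_div_of_nonneg_left hm0.le (by positivity)
    exact pow_le_pow_right₀ hM1 (by omega)
  have hR : ∀ y₁ y₂, Pool.Agent.W93.PG.cnt m y₁ y₂ = R m y₁ y₂ := fun _ _ => rfl
  simp only [hR] at hwin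
  have hsm : √(m : ℝ) ≤ m / M ^ (A + 1) := by
    rw [le_div_iff₀ (by positivity)]
    calc √(m : ℝ) * M ^ (A + 1) ≤ √(m : ℝ) * √(m : ℝ) := mul_le_mul_of_nonneg_left a2 hsm0.le
      _ = m := hmm
  have hsm2 : 2 ≤ √(m : ℝ) := by
    apply Real.le_sqrt_of_sq_le
    linarith
  constructor
  · obtain ⟨y, hy⟩ : ∃ y, y = ⌈(m : ℝ) / M ^ (A + 1)⌉₊ := ⟨_, rfl⟩
    have hy1 : (m : ℝ) / M ^ (A + 1) ≤ y := by rw [hy]; exact Nat.le_ceil _
    have hy2 : (y : ℝ) ≤ m / M ^ (A + 1) + 1 := by rw [hy]; exact (Nat.ceil_lt_add_one (by positivity)).le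
    have hy3 : (y : ℝ) ≤ m / M ^ A := by
      have e : (m : ℝ) / M ^ A = m / M ^ (A + 1) * M := by rw [pow_succ]; field_simp
      have h5 : (m : ℝ) / M ^ (A + 1) * 2 ≤ m / M ^ (A + 1) * M := mul_le_mul_of_nonneg_left a1 (by positivity)
      rw [e]
      linarith
    have hy4 : y ≤ m := by
      have h5 : (m : ℝ) / M ^ A ≤ m := div_le_self hm0.le (one_le_pow₀ hM1)
      exact_mod_cast hy3.trans h5
    have hy0 : 0 < y := by
      have : (0 : ℝ) < y := by linarith
      exact_mod_cast this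
    have hw := hwin 0 y hy0 hy4 (by push_cast; linarith)
    have hmain : 0 < sing m * ((y : ℝ) - (0 : ℕ)) / M ^ 2 := by
      have : (0 : ℝ) < (y : ℝ) - (0 : ℕ) := by push_cast; linarith
      positivity
    have h6 : |(R m 0 y : ℝ) - sing m * ((y : ℝ) - (0 : ℕ)) / M ^ 2| ≤ 1 / 2 * (sing m * ((y : ℝ) - (0 : ℕ)) / M ^ 2) :=
      hw.trans (mul_le_mul_of_nonneg_right (min_le_right _ _) hmain.le)
    have h7 : (0 : ℝ) < R m 0 y := by
      rw [abs_le] at h6
      linarith [h6.1]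
    have h8 : 0 < R m 0 y := by exact_mod_cast h7
    unfold R at h8
    rw [card_pos] at h8
    obtain ⟨p, hp⟩ := h8
    rw [mem_filter, mem_Ioc] at hp
    have h9 : (p : ℝ) ≤ y := by exact_mod_cast hp.1.2
    exact ⟨p, hp.2.1, hp.2.2, h9.trans hy3⟩
  · intro y₁ y₂ h12 hy2 hΔ
    have hw := hwin y₁ y₂ h12 hy2 (hle.trans hΔ)
    refine hw.trans ?_
    apply mul_le_mul_of_nonneg_right (min_le_left _ _)
    have h5 : (0 : ℝ) ≤ (y₂ : ℝ) - y₁ := by
      have : (y₁ : ℝ) ≤ y₂ := by exact_mod_cast h12.le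
      linarith
    positivity

/-- The set `J` of scales below `k` is rich: it contains more than three fifths of all the scales, more than one half
of the `m` lowest scales, and a positive proportion of the `m` highest scales (the last two conditions are
void for `m ≤ D log k`). -/
structure Rich (δ : ℝ) (D k : ℕ) (J : Finset ℕ) : Prop where
  lt : ∀ j ∈ J, j < k
  all : (3 / 5 + δ) * k ≤ (J.card : ℝ)
  low : ∀ m ≤ k, (1 / 2 + δ) * m ≤ ((J.filter fun j => j < m).card : ℝ) + D * Real.log k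
  high : ∀ m ≤ k, δ * m ≤ ((J.filter fun j => k - m ≤ j).card : ℝ) + D * Real.log k

open Classical in
/-- The probability of the event `E` if `x 0, ..., x (k - 1)` are independent random integers, where `x j` takes
its values in the finite set `s j`, and the value `x` with the probability `p j x`. -/
noncomputable def Prob (k : ℕ) (s : ℕ → Finset ℤ) (p : ℕ → ℤ → ℝ) (E : (Fin k → ℤ) → Prop) : ℝ :=
  ∑ x ∈ Fintype.piFinset (fun j : Fin k => s j), if E x then ∏ j : Fin k, p j (x j) else 0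

open Classical in
/-- Let `b ≥ 2`, `B ≥ 1`, `D`, `A`, `U`, `η > 0`, `δ > 0` and `ε > 0` be fixed, let `k` be large, and let `J` be an
arbitrary rich set of scales below `k`. (1) Let `x 0, ..., x (k - 1)` be arbitrary independent random integers with
`|x j| ≤ B b ^ j` such that, for all `j` in `J`, no interval of the length `b ^ j / B` contains `x j` with a
probability larger than `1 - η` (nothing is assumed for the other `j`: these `x j` may be constants). Let `c` be an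
arbitrary integer with `|c| ≤ B b ^ k`. Then, with a probability of at least `1 - 1 / k ^ U`, the integer
`m = c + x 0 + ... + x (k - 1)` has the following property: if `m` is positive and even, then there is a prime
`p ≤ m / log ^ A m` such that `m - p` is a prime, and in all windows of length at least `m / log ^ A m` the number
of such primes is as predicted, up to a relative error of at most `ε`. (2) Let `T 0, ..., T (k - 1)` be arbitrary
nonempty sets of digits in base `b`, such that `T j` has at least two elements if `j` is in `J` (the other digits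
may be prescribed). Then the same property holds for all the integers `m < b ^ k` whose digit at the place `j`
belongs to `T j` for all `j < k`, with at most `(#T 0 ⋯ #T (k - 1)) / k ^ U` exceptions. -/
theorem result (b B D A U : ℕ) (hb : 2 ≤ b) (hB : 1 ≤ B) (η δ ε : ℝ) (hη : 0 < η) (hδ : 0 < δ) (hε : 0 < ε) :
    ∃ k₀ : ℕ, ∀ k : ℕ, k₀ ≤ k → ∀ J : Finset ℕ, Rich δ D k J →
      (∀ (s : ℕ → Finset ℤ) (p : ℕ → ℤ → ℝ),
        (∀ j < k, (∀ x ∈ s j, 0 ≤ p j x ∧ |x| ≤ (B : ℤ) * (b : ℤ) ^ j) ∧ ∑ x ∈ s j, p j x = 1) →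
        (∀ j ∈ J, ∀ y : ℤ, ∑ x ∈ (s j).filter (fun x => y ≤ x ∧ (B : ℤ) * (x - y) ≤ (b : ℤ) ^ j), p j x ≤ 1 - η) →
        ∀ c : ℤ, |c| ≤ (B : ℤ) * (b : ℤ) ^ k →
          Prob k s p (fun x => 0 < c + ∑ j, x j ∧ Even (c + ∑ j, x j) ∧ ¬ Holds ε A (c + ∑ j, x j).toNat) ≤
            1 / (k : ℝ) ^ U) ∧
      (∀ T : ℕ → Finset ℕ, (∀ j < k, (T j).Nonempty ∧ ∀ a ∈ T j, a < b) → (∀ j ∈ J, 2 ≤ (T j).card) →
        (((range (b ^ k)).filter fun m =>
            (∀ j < k, m / b ^ j % b ∈ T j) ∧ 0 < m ∧ Even m ∧ ¬ Holds ε A m).card : ℝ) ≤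
          (∏ j ∈ range k, ((T j).card : ℝ)) / (k : ℝ) ^ U) := by
  obtain ⟨m₀, h0⟩ := holds_of ε A
  obtain ⟨k₀, h1⟩ := Pool.Agent.Y885.rs_both b B D (A + 1) U m₀ hb hB η δ _ hη hδ
    (lt_min hε (by norm_num : (0 : ℝ) < 1 / 2)) (Holds ε A) h0
  refine ⟨k₀, fun k hk J hJ => ?_⟩
  obtain ⟨h2, h3⟩ := h1 k hk J ⟨hJ.lt, hJ.low, hJ.high, hJ.all⟩
  refine ⟨fun s p hs hp c hc => ?_, h3⟩
  refine le_trans (le_of_eq ?_) (h2 s p hs hp c hc)
  unfold Prob
  apply sum_congr rfl
  intro x _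
  split_ifs <;> rfl

end Pool.Agent.Results.MP_bae66e_nt.RandomSumWindows
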