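import Pool.Agent.Y882.GX.Sm

/-!
# Even numbers as a small prime plus a number with at most two or three prime factors

Chen's theorem with a small prime (Cai 2014): every large even `N` is `p + P₂` with
`p ≤ N ^ 0.941`.  Here the prime is `p < N ^ θ` for a given `θ > 0`, with few exceptional `N`: the
weighted linear sieve is used with the level of distribution `X ^ τ`, `τ ≥ 1 / 2`, which is
available for all but `X ^ (2 τ - θ + ε)` even `N ≤ X`, however small `θ` is.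
-/

set_option autoImplicit false

open Finset Filter

namespace Pool.Agent.Results.MP_bae66e_nt.SmallPrimeAlmostPrime

/-- the variable part of the singular series of the Goldbach problem -/
noncomputable def sing (N : ℕ) : ℝ :=
  ∏ p ∈ N.primeFactors.erase 2, (((p : ℝ) - 1) / ((p : ℝ) - 2))

open Classical in
/-- The number of the primes `p < N` with `N ^ θ / 4 < p < N ^ θ` such that `N - p` has at most `r`
prime factors (counted with multiplicity), all of them at least `N ^ ζ / 2`. -/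
noncomputable def almostPrimes (r : ℕ) (θ ζ : ℝ) (N : ℕ) : ℕ :=
  ((range N).filter (fun p : ℕ => p.Prime ∧ (N : ℝ) ^ θ / 4 < p ∧ (p : ℝ) < (N : ℝ) ^ θ ∧
    (N - p).primeFactorsList.length ≤ r ∧
    ∀ q : ℕ, q.Prime → q ∣ (N - p) → (N : ℝ) ^ ζ / 2 ≤ q)).card

open Classical in
/-- **A small prime plus an almost prime.** Let `r = 3`, `1 / 2 ≤ τ < 1`, `ζ = 2 τ / 5`, or `r = 2`,
`6 / 11 ≤ τ < 1`, `ζ = τ / 4`, and `0 < θ ≤ 1`. All even `N ≤ X` with at most
`C X ^ (2 τ - θ + ε)` exceptions have at least `δ sing N N ^ θ / (log N) ^ 2` primes `p` of size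
`N ^ θ` such that `N - p` has at most `r` prime factors, all of them at least `N ^ ζ / 2`. -/
theorem result (r : ℕ) (θ τ ζ ε : ℝ)
    (hpar : (r = 3 ∧ 1 / 2 ≤ τ ∧ ζ = 2 / 5 * τ) ∨ (r = 2 ∧ 6 / 11 ≤ τ ∧ ζ = τ / 4))
    (hτ : τ < 1) (hθ0 : 0 < θ) (hθ1 : θ ≤ 1) (hε : 0 < ε) :
    ∃ δ C : ℝ, 0 < δ ∧ 0 < C ∧ ∀ X : ℕ, 1 ≤ X →
      (((Icc 1 X).filter (fun N : ℕ => Even N ∧
        (almostPrimes r θ ζ N : ℝ) < δ * sing N * ((N : ℝ) ^ θ / Real.log N ^ 2))).card : ℝ) ≤
      C * (X : ℝ) ^ (2 * τ - θ + ε) :=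
  Pool.Agent.Y882.GX.smallFew r θ τ ζ ε hpar hτ hθ0 hθ1 hε

end Pool.Agent.Results.MP_bae66e_nt.SmallPrimeAlmostPrime
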